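import Pool.Agent.Lib.MP_1a9bf8_co.FIN
import Pool.Agent.Lib.MP_1a9bf8_co.FINT

/-!
# Cross distances of two dense subsets of a square or triangular lattice patch

For pairs of `n`-point sets contained in one square (or triangular) lattice patch of side `2 C √n` the
negated form of the question holds: the number of cross distances is at least `c f(2n)`, and at least
`c n / √(log 2n)`.
-/

set_option autoImplicit false

namespace Pool.Agent.Results.MP_1a9bf8_co.DenseLatticePairs

/-- The number of distances `d(x, y)`, `x ∈ A`, `y ∈ B`. -/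
noncomputable def crossDistances (A B : Finset (EuclideanSpace ℝ (Fin 2))) : ℕ :=
  ((A ×ˢ B).image fun x => dist x.1 x.2).card

/-- `f N`: the least number of distances `d(p, q)`, `p ≠ q`, of a set of `N` points of the plane. -/
noncomputable def f (N : ℕ) : ℕ :=
  sInf {k : ℕ | ∃ P : Finset (EuclideanSpace ℝ (Fin 2)), P.card = N ∧
    k = (P.offDiag.image fun x => dist x.1 x.2).card}

/-- `v` rotated by a right angle. -/
noncomputable def rotate90 (v : EuclideanSpace ℝ (Fin 2)) : EuclideanSpace ℝ (Fin 2) :=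
  !₂[-(v 1), v 0]

/-- `v` rotated by 60 degrees. -/
noncomputable def rotate60 (v : EuclideanSpace ℝ (Fin 2)) : EuclideanSpace ℝ (Fin 2) :=
  !₂[(v 0 - √3 * v 1) / 2, (√3 * v 0 + v 1) / 2]

/-- `S` is contained in a patch of the lattice spanned by `v` and `w`, translated by `o`: every point of `S`
is `o + x v + y w` with integers `|x|, |y| ≤ r`. -/
def InPatch (r : ℝ) (S : Set (EuclideanSpace ℝ (Fin 2))) (o v w : EuclideanSpace ℝ (Fin 2)) : Prop :=
  ∀ p ∈ S, ∃ x y : ℤ, |(x : ℝ)| ≤ r ∧ |(y : ℝ)| ≤ r ∧ p = o + (x : ℝ) • v + (y : ℝ) • w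

/-- For every `C > 0` there is `c > 0` such that any two `n`-point sets `A`, `B` inside one patch
`{o + x v + y w : |x|, |y| ≤ C √n}` of a square lattice (`w` is `v` turned by 90 degrees) or of a triangular
lattice (`w` is `v` turned by 60 degrees) have at least `c n / √(log 2n)` and at least `c f(2n)` cross
distances. -/
theorem result : ∀ C : ℝ, 0 < C → ∃ c : ℝ, 0 < c ∧ ∀ (n : ℕ)
    (A B : Finset (EuclideanSpace ℝ (Fin 2))) (o v w : EuclideanSpace ℝ (Fin 2)),
    1 ≤ n → A.card = n → B.card = n → (w = rotate90 v ∨ w = rotate60 v) →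
    InPatch (C * √n) (A ∪ B : Set (EuclideanSpace ℝ (Fin 2))) o v w →
    c * n / √(Real.log (2 * n)) ≤ crossDistances A B ∧ c * f (2 * n) ≤ crossDistances A B := by
  intro C hC
  obtain ⟨c, hc, h⟩ := Pool.Agent.Lib.DG.fin C hC
  obtain ⟨c', hc', h'⟩ := Pool.Agent.Lib.DG.finT C hC
  refine ⟨min c c', lt_min hc hc', fun n A B o v w hn hA hB hw hP => ?_⟩
  have hlog : 0 ≤ √(Real.log (2 * n)) := Real.sqrt_nonneg _
  have key : ∀ d : ℝ, min c c' ≤ d →
      (d * n / √(Real.log (2 * n)) ≤ crossDistances A B ∧ d * f (2 * n) ≤ crossDistances A B) →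
      min c c' * n / √(Real.log (2 * n)) ≤ crossDistances A B ∧
        min c c' * f (2 * n) ≤ crossDistances A B := by
    intro d hd hh
    refine ⟨le_trans ?_ hh.1, le_trans ?_ hh.2⟩
    · gcongr
    · gcongr
  have hmem : ∀ p ∈ A ∪ B, p ∈ (A ∪ B : Set (EuclideanSpace ℝ (Fin 2))) := by
    intro p hp
    rcases Finset.mem_union.1 hp with h1 | h1
    · exact Or.inl (Finset.mem_coe.2 h1)
    · exact Or.inr (Finset.mem_coe.2 h1)
  rcases hw with rfl | rfl
  · exact key c (min_le_left _ _) (h n A B hn hA hB ⟨o, v, fun p hp => hP p (hmem p hp)⟩)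
  · exact key c' (min_le_right _ _) (h' n A B hn hA hB ⟨o, v, fun p hp => hP p (hmem p hp)⟩)

end Pool.Agent.Results.MP_1a9bf8_co.DenseLatticePairs
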